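import Pool.Agent.Helper29.SF.Defs

/-!
# Coordinates for configurations with one quintuple (MP_541d70_co): one gate, two gates
-/

set_option autoImplicit false

namespace Pool.Agent.Helper28.SF

open Pool.Agent.Helper59.HD Pool.Agent.Helper59.HD5 Pool.Agent.Helper29.SF

variable {V : Type} [AddCommGroup V] [Module ℝ V]

theorem basis_ind {L : Submodule ℝ V} {q : Fin 4 → V} {ι : Type} [Fintype ι] {F : ι → V}
    (hq : ∀ a : Fin 4 → ℝ, ∑ k, a k • q k = 0 → a = 0) (hqL : ∀ k, q k ∈ L)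
    (hF : ∀ s : ι → ℝ, ∑ j, s j • F j ∈ L → s = 0) (c : Fin 4 ⊕ ι → ℝ)
    (hc : ∑ i, c i • Sum.elim q F i = 0) : c = 0 := by
  rw [Fintype.sum_sum_type] at hc
  simp only [Sum.elim_inl, Sum.elim_inr] at hc
  have h1 : (fun j => c (Sum.inr j)) = 0 := by
    apply hF
    have h0 : ∑ j, c (Sum.inr j) • F j = -∑ k, c (Sum.inl k) • q k := by
      rw [eq_neg_iff_add_eq_zero, add_comm]
      exact hc
    rw [h0]
    exact L.neg_mem (L.sum_mem fun k _ => L.smul_mem _ (hqL k))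
  have h2 : (fun k => c (Sum.inl k)) = 0 := by
    apply hq
    have h3 : ∑ j, c (Sum.inr j) • F j = 0 := Finset.sum_eq_zero fun j _ => by
      have h4 := congrFun h1 j
      simp only [Pi.zero_apply] at h4
      rw [h4, zero_smul]
    rw [h3, add_zero] at hc
    exact hc
  funext i
  rcases i with k | j
  · exact congrFun h2 k
  · exact congrFun h1 j

theorem basis_span {L T : Submodule ℝ V} {q : Fin 4 → V} {ι : Type} {F : ι → V}
    (hqL : ∀ k, q k ∈ L) (hqs : ∀ w ∈ L, ∃ a : Fin 4 → ℝ, w = ∑ k, a k • q k)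
    (hT : L ⊔ Submodule.span ℝ (Set.range F) = T) :
    Submodule.span ℝ (Set.range (Sum.elim q F)) = T := by
  have hL : Submodule.span ℝ (Set.range q) = L := by
    apply le_antisymm
    · rw [Submodule.span_le]
      rintro _ ⟨k, rfl⟩
      exact hqL k
    · intro w hw
      obtain ⟨a, rfl⟩ := hqs w hw
      exact Submodule.sum_mem _ fun k _ => Submodule.smul_mem _ _ (Submodule.subset_span ⟨k, rfl⟩)
  rw [Set.Sum.elim_range, Submodule.span_union, hL, hT]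

theorem mem_pair {κ : Type} (b : κ → V) {D : Set κ} {i i' : κ} (hi : i ∈ D) (hi' : i' ∈ D)
    {f : V} {x y : ℝ} (h : f = x • b i + y • b i') : f ∈ Submodule.span ℝ (b '' D) := by
  rw [h]
  exact Submodule.add_mem _ (Submodule.smul_mem _ _ (Submodule.subset_span ⟨i, hi, rfl⟩))
    (Submodule.smul_mem _ _ (Submodule.subset_span ⟨i', hi', rfl⟩))

theorem class_eq {u F f : V} {t s : ℝ} (ht : t ≠ 0) (hs : t • f - F = s • u) :
    f = (t⁻¹ * s) • u + t⁻¹ • F := by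
  have h1 : t • f = s • u + F := by rw [← hs]; abel
  have h2 : f = t⁻¹ • (t • f) := by rw [smul_smul, inv_mul_cancel₀ ht, one_smul]
  rw [h2, h1, smul_add, smul_smul]

/-- C1. All gates are equal. -/
theorem piece_b {S : Set V} {L T : Submodule ℝ V} {c : Fin 5 → V} (h : Quint S L c)
    {ι : Type} [Fintype ι] {F F' : ι → V} (hC : Cls S L T F F')
    (hF : ∀ j f, f ∈ Gs S → f - F j ∈ L → ∃ t : ℝ, f - F j = t • (c 0 + c 1))
    (hin : ∀ f ∈ Gs S, f ∈ L → ∀ x : Fin 5 → ℝ, f = ∑ i, x i • c i →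
      x 0 = x 1 ∨ (x 2 = x 3 ∧ x 3 = x 4)) : HasPieces 4 T S := by
  have hsum : c 0 + c 1 + c 2 + c 3 + c 4 = 0 := by
    have := h.sum
    rwa [Fin.sum_univ_five] at this
  set q : Fin 4 → V := ![c 0 + c 1, c 0, c 2, c 3] with hq
  have hq4 : ∀ a : Fin 4 → ℝ, ∑ k, a k • q k =
      a 0 • (c 0 + c 1) + a 1 • c 0 + a 2 • c 2 + a 3 • c 3 := by
    intro a
    rw [Fin.sum_univ_four, hq]
    rfl
  have hqL : ∀ k, q k ∈ L := by
    intro k
    fin_cases k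
    · exact L.add_mem (h.memL 0) (h.memL 1)
    · exact h.memL 0
    · exact h.memL 2
    · exact h.memL 3
  have hqi : ∀ a : Fin 4 → ℝ, ∑ k, a k • q k = 0 → a = 0 := by
    intro a ha
    rw [hq4] at ha
    have h1 := h.min ![a 0 + a 1, a 0, a 2, a 3, 0] (by
      rw [Fin.sum_univ_five]
      change (a 0 + a 1) • c 0 + a 0 • c 1 + a 2 • c 2 + a 3 • c 3 + (0 : ℝ) • c 4 = 0
      rw [← ha]
      module)
    have e0 : a 0 = 0 := h1 1 4
    have e1 : a 0 + a 1 = 0 := h1 0 4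
    have e2 : a 2 = 0 := h1 2 4
    have e3 : a 3 = 0 := h1 3 4
    funext k
    fin_cases k
    · exact e0
    · change a 1 = 0
      linarith
    · exact e2
    · exact e3
  have hw : ∀ w ∈ L, ∃ x : Fin 5 → ℝ, w = ∑ i, x i • c i ∧
      w = (x 1 - x 4) • (c 0 + c 1) + (x 0 - x 1) • c 0 + (x 2 - x 4) • c 2 +
        (x 3 - x 4) • c 3 := by
    intro w hw
    obtain ⟨x, hx⟩ := h.span w hw
    refine ⟨x, hx, ?_⟩
    rw [hx, Fin.sum_univ_five]
    linear_combination (norm := module) (x 4) • hsum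
  have hqs : ∀ w ∈ L, ∃ a : Fin 4 → ℝ, w = ∑ k, a k • q k := by
    intro w hwL
    obtain ⟨x, -, hx⟩ := hw w hwL
    refine ⟨![x 1 - x 4, x 0 - x 1, x 2 - x 4, x 3 - x 4], ?_⟩
    rw [hq4, hx]
    rfl
  refine ⟨Fin 4 ⊕ ι, Unit, inferInstance, inferInstance, Sum.elim q F, fun _ => (),
    fun _ => {D | D = {Sum.inl 0, Sum.inl 2, Sum.inl 3} ∨
      ∃ x ∈ {i : Fin 4 ⊕ ι | (fun _ => ()) i = ()}, D = {Sum.inl 0, x}}, ?_, ?_, ?_, ?_⟩
  · intro g
    right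
    left
    exact ⟨by norm_num, Sum.inl 0, rfl, Sum.inl 2, rfl, Sum.inl 3, rfl,
      fun h4 => absurd h4 (by norm_num), rfl⟩
  · exact basis_ind hqi hqL hC.ind
  · exact basis_span hqL hqs hC.span
  · intro f hf
    right
    refine ⟨(), ?_⟩
    rcases hC.cov f hf with hL | ⟨j, t, ht, htj⟩
    · obtain ⟨x, hx, hx'⟩ := hw f hL
      rcases hin f ⟨f, hf, 1, by rw [one_smul]⟩ hL x hx with h1 | ⟨h1, h2⟩
      · refine ⟨{Sum.inl 0, Sum.inl 2, Sum.inl 3}, Or.inl rfl, ?_⟩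
        rw [hx', h1, sub_self, zero_smul, add_zero]
        refine Submodule.add_mem _ (Submodule.add_mem _ ?_ ?_) ?_
        · exact Submodule.smul_mem _ _ (Submodule.subset_span ⟨Sum.inl 0, by simp, rfl⟩)
        · exact Submodule.smul_mem _ _ (Submodule.subset_span ⟨Sum.inl 2, by simp, rfl⟩)
        · exact Submodule.smul_mem _ _ (Submodule.subset_span ⟨Sum.inl 3, by simp, rfl⟩)
      · refine ⟨{Sum.inl 0, Sum.inl 1}, Or.inr ⟨Sum.inl 1, rfl, rfl⟩, ?_⟩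
        refine mem_pair (Sum.elim q F) (i := Sum.inl 0) (i' := Sum.inl 1) (x := x 1 - x 4)
          (y := x 0 - x 1) (by simp) (by simp) ?_
        rw [hx', h1, h2, sub_self, zero_smul, zero_smul, add_zero, add_zero]
        rfl
    · obtain ⟨s, hs⟩ := hF j (t • f) ⟨f, hf, t, rfl⟩ htj
      refine ⟨{Sum.inl 0, Sum.inr j}, Or.inr ⟨Sum.inr j, rfl, rfl⟩, ?_⟩
      exact mem_pair (Sum.elim q F) (i := Sum.inl 0) (i' := Sum.inr j) (by simp) (by simp)
        (class_eq ht hs)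

/-- C2. Two gates. -/
theorem piece_c {S : Set V} {L T : Submodule ℝ V} {c : Fin 5 → V} (h : Quint S L c)
    {ι : Type} [Fintype ι] {F F' : ι → V} (hC : Cls S L T F F') (A : Set ι)
    (hA : ∀ j ∈ A, ∀ f, f ∈ Gs S → f - F j ∈ L → ∃ t : ℝ, f - F j = t • (c 0 + c 1))
    (hA' : ∀ j, j ∉ A → ∀ f, f ∈ Gs S → f - F j ∈ L → ∃ t : ℝ, f - F j = t • (c 2 + c 3))
    (hin : ∀ f ∈ Gs S, f ∈ L → ∀ x : Fin 5 → ℝ, f = ∑ i, x i • c i →
      (x 0 = x 1 ∧ x 2 = x 3) ∨ (x 2 = x 3 ∧ x 3 = x 4) ∨ (x 0 = x 1 ∧ x 1 = x 4)) :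
    HasPieces 4 T S := by
  have hsum : c 0 + c 1 + c 2 + c 3 + c 4 = 0 := by
    have := h.sum
    rwa [Fin.sum_univ_five] at this
  set q : Fin 4 → V := ![c 0 + c 1, c 2 + c 3, c 0, c 2] with hq
  have hq4 : ∀ a : Fin 4 → ℝ, ∑ k, a k • q k =
      a 0 • (c 0 + c 1) + a 1 • (c 2 + c 3) + a 2 • c 0 + a 3 • c 2 := by
    intro a
    rw [Fin.sum_univ_four, hq]
    rfl
  have hqL : ∀ k, q k ∈ L := by
    intro k
    fin_cases k
    · exact L.add_mem (h.memL 0) (h.memL 1)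
    · exact L.add_mem (h.memL 2) (h.memL 3)
    · exact h.memL 0
    · exact h.memL 2
  have hqi : ∀ a : Fin 4 → ℝ, ∑ k, a k • q k = 0 → a = 0 := by
    intro a ha
    rw [hq4] at ha
    have h1 := h.min ![a 0 + a 2, a 0, a 1 + a 3, a 1, 0] (by
      rw [Fin.sum_univ_five]
      change (a 0 + a 2) • c 0 + a 0 • c 1 + (a 1 + a 3) • c 2 + a 1 • c 3 + (0 : ℝ) • c 4 = 0
      rw [← ha]
      module)
    have e0 : a 0 = 0 := h1 1 4
    have e1 : a 0 + a 2 = 0 := h1 0 4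
    have e2 : a 1 + a 3 = 0 := h1 2 4
    have e3 : a 1 = 0 := h1 3 4
    funext k
    fin_cases k
    · exact e0
    · exact e3
    · change a 2 = 0
      linarith
    · change a 3 = 0
      linarith
  have hw : ∀ w ∈ L, ∃ x : Fin 5 → ℝ, w = ∑ i, x i • c i ∧
      w = (x 1 - x 4) • (c 0 + c 1) + (x 3 - x 4) • (c 2 + c 3) + (x 0 - x 1) • c 0 +
        (x 2 - x 3) • c 2 := by
    intro w hw
    obtain ⟨x, hx⟩ := h.span w hw
    refine ⟨x, hx, ?_⟩
    rw [hx, Fin.sum_univ_five]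
    linear_combination (norm := module) (x 4) • hsum
  have hqs : ∀ w ∈ L, ∃ a : Fin 4 → ℝ, w = ∑ k, a k • q k := by
    intro w hwL
    obtain ⟨x, -, hx⟩ := hw w hwL
    refine ⟨![x 1 - x 4, x 3 - x 4, x 0 - x 1, x 2 - x 3], ?_⟩
    rw [hq4, hx]
    rfl
  refine ⟨Fin 4 ⊕ ι, Unit, inferInstance, inferInstance, Sum.elim q F, fun _ => (),
    fun _ => {D | D = {Sum.inl 0, Sum.inl 1} ∨
      (∃ x ∈ {i : Fin 4 ⊕ ι | (fun _ => ()) i = ()}, x ∈ ({Sum.inl 2} ∪ Sum.inr '' A :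
        Set (Fin 4 ⊕ ι)) ∧ D = {Sum.inl 0, x}) ∨
      ∃ x ∈ {i : Fin 4 ⊕ ι | (fun _ => ()) i = ()}, x ∉ ({Sum.inl 2} ∪ Sum.inr '' A :
        Set (Fin 4 ⊕ ι)) ∧ D = {Sum.inl 1, x}}, ?_, ?_, ?_, ?_⟩
  · intro g
    right
    right
    exact ⟨by norm_num, Sum.inl 0, rfl, Sum.inl 1, rfl, {Sum.inl 2} ∪ Sum.inr '' A, rfl⟩
  · exact basis_ind hqi hqL hC.ind
  · exact basis_span hqL hqs hC.span
  · intro f hf
    right
    refine ⟨(), ?_⟩
    rcases hC.cov f hf with hL | ⟨j, t, ht, htj⟩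
    · obtain ⟨x, hx, hx'⟩ := hw f hL
      rcases hin f ⟨f, hf, 1, by rw [one_smul]⟩ hL x hx with ⟨h1, h2⟩ | ⟨h1, h2⟩ | ⟨h1, h2⟩
      · refine ⟨{Sum.inl 0, Sum.inl 1}, Or.inl rfl, ?_⟩
        refine mem_pair (Sum.elim q F) (i := Sum.inl 0) (i' := Sum.inl 1) (x := x 1 - x 4)
          (y := x 3 - x 4) (by simp) (by simp) ?_
        rw [hx', h1, h2, sub_self, sub_self, zero_smul, zero_smul, add_zero, add_zero]
        rfl
      · refine ⟨{Sum.inl 0, Sum.inl 2}, Or.inr (Or.inl ⟨Sum.inl 2, rfl, Or.inl rfl, rfl⟩), ?_⟩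
        refine mem_pair (Sum.elim q F) (i := Sum.inl 0) (i' := Sum.inl 2) (x := x 1 - x 4)
          (y := x 0 - x 1) (by simp) (by simp) ?_
        rw [hx', h1, h2, sub_self, zero_smul, zero_smul, add_zero, add_zero]
        rfl
      · refine ⟨{Sum.inl 1, Sum.inl 3}, Or.inr (Or.inr ⟨Sum.inl 3, rfl, ?_, rfl⟩), ?_⟩
        · rintro (h3 | ⟨j, -, h3⟩)
          · exact absurd h3 (by simp)
          · exact absurd h3 (by simp)
        refine mem_pair (Sum.elim q F) (i := Sum.inl 1) (i' := Sum.inl 3) (x := x 3 - x 4)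
          (y := x 2 - x 3) (by simp) (by simp) ?_
        rw [hx', h1, h2, sub_self, zero_smul, zero_smul, zero_add, add_zero]
        rfl
    · by_cases hj : j ∈ A
      · obtain ⟨s, hs⟩ := hA j hj (t • f) ⟨f, hf, t, rfl⟩ htj
        refine ⟨{Sum.inl 0, Sum.inr j},
          Or.inr (Or.inl ⟨Sum.inr j, rfl, Or.inr ⟨j, hj, rfl⟩, rfl⟩), ?_⟩
        exact mem_pair (Sum.elim q F) (i := Sum.inl 0) (i' := Sum.inr j) (by simp) (by simp)
          (class_eq ht hs)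
      · obtain ⟨s, hs⟩ := hA' j hj (t • f) ⟨f, hf, t, rfl⟩ htj
        refine ⟨{Sum.inl 1, Sum.inr j}, Or.inr (Or.inr ⟨Sum.inr j, rfl, ?_, rfl⟩), ?_⟩
        · rintro (h3 | ⟨j', hj', h3⟩)
          · exact absurd h3 (by simp)
          · exact hj (Sum.inr_injective h3 ▸ hj')
        exact mem_pair (Sum.elim q F) (i := Sum.inl 1) (i' := Sum.inr j) (by simp) (by simp)
          (class_eq ht hs)

end Pool.Agent.Helper28.SF
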